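import Mathlib
import Pool.Agent.Helper43.LB.Defs

/-!
Row D of the project MP_660525_LB: the FKG step.  If `T` is a filling of the tail shape and `T'`
is the transpose of one, then `T ⊓ T'` is a filling of the bump shape and `T ⊔ T'` is a filling of
the maximal shape, and the Daykin inequality finishes.
-/

namespace Pool.Agent.Helper43.LB

open Finset

open scoped FinsetFamily

/-- the set of fillings -/
noncomputable def fillSet (r q B : ℕ) (l c : ℕ → ℕ) : Finset (Fin r → Fin q → Fin (B + 1)) := by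
  classical
  exact univ.filter (Fill r q B l c)

theorem mem_fillSet {r q B : ℕ} {l c : ℕ → ℕ} {T : Fin r → Fin q → Fin (B + 1)} :
    T ∈ fillSet r q B l c ↔ Fill r q B l c T := by
  classical
  simp [fillSet]

theorem NT_eq_card (r q B : ℕ) (l c : ℕ → ℕ) : NT r q B l c = (fillSet r q B l c).card := by
  classical
  unfold NT fillSet
  rw [Nat.card_eq_fintype_card, Fintype.card_subtype]

/-- transposition of square fillings -/
def trSq (r B : ℕ) : (Fin r → Fin r → Fin (B + 1)) ↪ (Fin r → Fin r → Fin (B + 1)) :=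
  ⟨fun T i j => T j i, fun T T' h => by
    funext i j
    exact congrFun (congrFun h j) i⟩

/-- facts on fillings of the tail shape -/
theorem tail_facts {k w J p : ℕ} {T : Fin (2 * k + 1 + w - 1) → Fin (2 * k + 1 + w - 1) →
    Fin (p + J + 1)}
    (h : Fill (2 * k + 1 + w - 1) (2 * k + 1 + w - 1) (p + J)
      (fun i => 2 * k + 1 + w - 1 - i - eTail (2 * k + 1 + w) k J i)
      (fun i => p + eTail (2 * k + 1 + w) k J i) T) (i j : Fin (2 * k + 1 + w - 1)) :
    ((i : ℕ) < k → (i : ℕ) + j < 2 * k + w → (T i j : ℕ) ≤ p) ∧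
    ((i : ℕ) < k → 2 * k + w ≤ (i : ℕ) + j → (T i j : ℕ) = p + J) ∧
    (k ≤ (i : ℕ) → 2 * k + w ≤ (i : ℕ) + j + J → (T i j : ℕ) = p + J) := by
  obtain ⟨-, -, h3, h4⟩ := h
  have h3 := h3 i j
  have h4 := h4 i j
  simp only [eTail] at h3 h4
  refine ⟨fun a b => ?_, fun a b => ?_, fun a b => ?_⟩
  · rw [if_pos a] at h3
    have := h3 (by omega)
    omega
  · rw [if_pos a] at h4
    exact h4 (by omega)
  · rw [if_neg (by omega)] at h4
    exact h4 (by omega)

theorem fill_bump {k w J p : ℕ} {T : Fin (2 * k + 1 + w - 1) → Fin (2 * k + 1 + w - 1) →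
    Fin (p + J + 1)}
    (h1 : ∀ (i : Fin (2 * k + 1 + w - 1)) (j j' : Fin (2 * k + 1 + w - 1)),
      j ≤ j' → T i j ≤ T i j')
    (h2 : ∀ (i i' : Fin (2 * k + 1 + w - 1)) (j : Fin (2 * k + 1 + w - 1)),
      i ≤ i' → T i j ≤ T i' j)
    (b1 : ∀ i j : Fin (2 * k + 1 + w - 1), (i : ℕ) < k ∨ (j : ℕ) < k →
      (i : ℕ) + j < 2 * k + w → (T i j : ℕ) ≤ p)
    (b2 : ∀ i j : Fin (2 * k + 1 + w - 1), 2 * k + w ≤ (i : ℕ) + j → (T i j : ℕ) = p + J)
    (b3 : ∀ i j : Fin (2 * k + 1 + w - 1), k ≤ (i : ℕ) → k ≤ (j : ℕ) →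
      2 * k + w ≤ (i : ℕ) + j + J → (T i j : ℕ) = p + J) :
    Fill (2 * k + 1 + w - 1) (2 * k + 1 + w - 1) (p + J)
      (fun i => 2 * k + 1 + w - 1 - i - eBump (2 * k + 1 + w) k J i)
      (fun i => p + eBump (2 * k + 1 + w) k J i) T := by
  refine ⟨h1, h2, fun i j hj => ?_, fun i j hj => ?_⟩
  · have hT : (T i j : ℕ) < p + J + 1 := (T i j).2
    have e1 := b1 i j
    simp only [eBump] at hj ⊢
    split_ifs at hj ⊢ with hik
    · have := e1 (Or.inl hik) (by omega)
      omega
    · rcases le_total J (2 * k + 1 + w - 1 - k - (i : ℕ)) with hJ | hJ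
      · rw [min_eq_left hJ]
        omega
      · rw [min_eq_right hJ] at hj ⊢
        have := e1 (Or.inr (by omega)) (by omega)
        omega
  · have e2 := b2 i j
    have e3 := b3 i j
    simp only [eBump] at hj
    split_ifs at hj with hik
    · exact e2 (by omega)
    · rcases le_total J (2 * k + 1 + w - 1 - k - (i : ℕ)) with hJ | hJ
      · rw [min_eq_left hJ] at hj
        rcases Nat.lt_or_ge (2 * k + 1 + w - 1 - k) (i : ℕ) with hi | hi
        · exact e2 (by omega)
        · exact e3 (by omega) (by omega) (by omega)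
      · rw [min_eq_right hJ] at hj
        rcases Nat.lt_or_ge (2 * k + 1 + w - 1 - k) (i : ℕ) with hi | hi
        · exact e2 (by omega)
        · exact e3 (by omega) (by omega) (by omega)

theorem fill_max {k w J p : ℕ} {T : Fin (2 * k + 1 + w - 1) → Fin (2 * k + 1 + w - 1) →
    Fin (p + J + 1)}
    (h1 : ∀ (i : Fin (2 * k + 1 + w - 1)) (j j' : Fin (2 * k + 1 + w - 1)),
      j ≤ j' → T i j ≤ T i j')
    (h2 : ∀ (i i' : Fin (2 * k + 1 + w - 1)) (j : Fin (2 * k + 1 + w - 1)),
      i ≤ i' → T i j ≤ T i' j)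
    (b : ∀ i j : Fin (2 * k + 1 + w - 1), 2 * k + w ≤ (i : ℕ) + j + J →
      (T i j : ℕ) = p + J) :
    Fill (2 * k + 1 + w - 1) (2 * k + 1 + w - 1) (p + J)
      (fun i => 2 * k + 1 + w - 1 - i - eMax (2 * k + 1 + w) J i)
      (fun i => p + eMax (2 * k + 1 + w) J i) T := by
  refine ⟨h1, h2, fun i j hj => ?_, fun i j hj => ?_⟩
  · have hT : (T i j : ℕ) < p + J + 1 := (T i j).2
    simp only [eMax] at hj ⊢
    omega
  · have e := b i j
    simp only [eMax] at hj
    exact e (by omega)

theorem bump_ge (k w j p : ℕ) (hj : j ≤ w) :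
    NE (2 * k + 1 + w) p (p + j) (eTail (2 * k + 1 + w) k j) ^ 2
      ≤ NE (2 * k + 1 + w) p (p + j) (eBump (2 * k + 1 + w) k j)
        * NE (2 * k + 1 + w) p (p + j) (eMax (2 * k + 1 + w) j) := by
  classical
  unfold NE
  rw [NT_eq_card, NT_eq_card, NT_eq_card]
  set s := fillSet (2 * k + 1 + w - 1) (2 * k + 1 + w - 1) (p + j)
      (fun i => 2 * k + 1 + w - 1 - i - eTail (2 * k + 1 + w) k j i)
      (fun i => p + eTail (2 * k + 1 + w) k j i) with hs
  have hcard : (s.map (trSq (2 * k + 1 + w - 1) (p + j))).card = s.card := card_map _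
  have key := Finset.le_card_infs_mul_card_sups s (s.map (trSq (2 * k + 1 + w - 1) (p + j)))
  rw [hcard, ← sq] at key
  refine key.trans (Nat.mul_le_mul (card_le_card ?_) (card_le_card ?_))
  · intro T hT
    obtain ⟨a, ha, b', hb', rfl⟩ := mem_infs.1 hT
    obtain ⟨b, hb, rfl⟩ := mem_map.1 hb'
    rw [hs, mem_fillSet] at ha hb
    have fa := tail_facts ha
    have fb := tail_facts hb
    have ma := ha.1
    have ma' := ha.2.1
    have mb := hb.1
    have mb' := hb.2.1
    rw [mem_fillSet]
    have hval : ∀ x y : Fin (2 * k + 1 + w - 1),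
        (((a ⊓ trSq (2 * k + 1 + w - 1) (p + j) b) x y : Fin (p + j + 1)) : ℕ)
          = min (a x y : ℕ) (b y x : ℕ) := by
      intro x y
      show ((a x y ⊓ b y x : Fin (p + j + 1)) : ℕ) = _
      rcases le_total (a x y) (b y x) with h | h
      · rw [inf_eq_left.2 h, min_eq_left (by exact_mod_cast h)]
      · rw [inf_eq_right.2 h, min_eq_right (by exact_mod_cast h)]
    refine fill_bump ?_ ?_ ?_ ?_ ?_
    · intro x y y' h
      exact inf_le_inf (ma x y y' h) (mb' y y' x h)
    · intro x x' y h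
      exact inf_le_inf (ma' x x' y h) (mb y x x' h)
    · intro x y h1 h2
      rw [hval]
      rcases h1 with h1 | h1
      · have := (fa x y).1 h1 h2
        omega
      · have := (fb y x).1 h1 (by omega)
        omega
    · intro x y h1
      rw [hval]
      have e1 : (a x y : ℕ) = p + j := by
        rcases Nat.lt_or_ge (x : ℕ) k with h | h
        · exact (fa x y).2.1 h h1
        · exact (fa x y).2.2 h (by omega)
      have e2 : (b y x : ℕ) = p + j := by
        rcases Nat.lt_or_ge (y : ℕ) k with h | h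
        · exact (fb y x).2.1 h (by omega)
        · exact (fb y x).2.2 h (by omega)
      omega
    · intro x y h1 h2 h3
      rw [hval, (fa x y).2.2 h1 h3, (fb y x).2.2 h2 (by omega)]
      exact min_self _
  · intro T hT
    obtain ⟨a, ha, b', hb', rfl⟩ := mem_sups.1 hT
    obtain ⟨b, hb, rfl⟩ := mem_map.1 hb'
    rw [hs, mem_fillSet] at ha hb
    have fa := tail_facts ha
    have fb := tail_facts hb
    have ma := ha.1
    have ma' := ha.2.1
    have mb := hb.1
    have mb' := hb.2.1
    rw [mem_fillSet]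
    have hval : ∀ x y : Fin (2 * k + 1 + w - 1),
        (((a ⊔ trSq (2 * k + 1 + w - 1) (p + j) b) x y : Fin (p + j + 1)) : ℕ)
          = max (a x y : ℕ) (b y x : ℕ) := by
      intro x y
      show ((a x y ⊔ b y x : Fin (p + j + 1)) : ℕ) = _
      rcases le_total (a x y) (b y x) with h | h
      · rw [sup_eq_right.2 h, max_eq_right (by exact_mod_cast h)]
      · rw [sup_eq_left.2 h, max_eq_left (by exact_mod_cast h)]
    refine fill_max ?_ ?_ ?_
    · intro x y y' h
      exact sup_le_sup (ma x y y' h) (mb' y y' x h)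
    · intro x x' y h
      exact sup_le_sup (ma' x x' y h) (mb y x x' h)
    · intro x y h1
      rw [hval]
      have ba : (a x y : ℕ) < p + j + 1 := (a x y).2
      have bb : (b y x : ℕ) < p + j + 1 := (b y x).2
      rcases Nat.lt_or_ge (x : ℕ) k with h | h
      · rcases Nat.lt_or_ge (y : ℕ) k with h' | h'
        · omega
        · have := (fb y x).2.2 h' (by omega)
          omega
      · have := (fa x y).2.2 h h1
        omega

end Pool.Agent.Helper43.LB
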