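import Mathlib
import Pool.Agent.Helper43.LB.Defs

/-!
Row J of the project MP_660525_LB: the layered optimum.
-/

namespace Pool.Agent.Helper43.LB

open Real Set

/-- `Sf 1 P` as a function of `t = 2P` -/
noncomputable def sf (t : ℝ) : ℝ :=
  (t + 2) ^ 2 / 4 * log (t + 2) + t / 4 * (t * log t) - (t + 1) ^ 2 / 2 * log (t + 1) - log 2

/-- twice the derivative of `sf` -/
noncomputable def Af (t : ℝ) : ℝ :=
  (t + 2) * log (t + 2) - 2 * ((t + 1) * log (t + 1)) + t * log t

theorem Sf_one (P : ℝ) : Sf 1 P = sf (2 * P) := by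
  unfold Sf Gf sf
  have e1 : (2 : ℝ) * P + 2 * 1 = 2 * P + 2 := by ring
  have e2 : (2 : ℝ) * 1 = 2 := by ring
  rw [e1, e2, Real.log_one]
  ring

theorem hasDerivAt_sf {t : ℝ} (ht : 0 < t) : HasDerivAt sf (Af t / 2) t := by
  have h2 : HasDerivAt (fun x : ℝ => x + 2) 1 t := (hasDerivAt_id t).add_const 2
  have h1 : HasDerivAt (fun x : ℝ => x + 1) 1 t := (hasDerivAt_id t).add_const 1
  have l2 : HasDerivAt (fun x : ℝ => log (x + 2)) (1 / (t + 2)) t := h2.log (by positivity)
  have l1 : HasDerivAt (fun x : ℝ => log (x + 1)) (1 / (t + 1)) t := h1.log (by positivity)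
  have l0 : HasDerivAt (fun x : ℝ => log x) (1 / t) t := (hasDerivAt_id t).log ht.ne'
  have s2 : HasDerivAt (fun x : ℝ => (x + 2) ^ 2 / 4) ((t + 2) / 2) t := by
    have h := (h2.pow 2).div_const 4
    have e : (t + 2) / 2 = ((2 : ℕ) : ℝ) * (t + 2) ^ (2 - 1) * 1 / 4 := by
      push_cast
      ring
    rw [e]
    exact h
  have s1 : HasDerivAt (fun x : ℝ => (x + 1) ^ 2 / 2) (t + 1) t := by
    have h := (h1.pow 2).div_const 2
    have e : t + 1 = ((2 : ℕ) : ℝ) * (t + 1) ^ (2 - 1) * 1 / 2 := by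
      push_cast
      ring
    rw [e]
    exact h
  have s0 : HasDerivAt (fun x : ℝ => x / 4) (1 / 4) t := (hasDerivAt_id t).div_const 4
  have i0 : HasDerivAt (fun x : ℝ => x) 1 t := hasDerivAt_id t
  have key := (((s2.mul l2).add (s0.mul (i0.mul l0))).sub (s1.mul l1)).sub_const (log 2)
  have hd : HasDerivAt sf (((t + 2) / 2 * log (t + 2) + (t + 2) ^ 2 / 4 * (1 / (t + 2)))
      + (1 / 4 * (t * log t) + t / 4 * (1 * log t + t * (1 / t)))
      - ((t + 1) * log (t + 1) + (t + 1) ^ 2 / 2 * (1 / (t + 1)))) t := key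
  have hv : Af t / 2 = ((t + 2) / 2 * log (t + 2) + (t + 2) ^ 2 / 4 * (1 / (t + 2)))
      + (1 / 4 * (t * log t) + t / 4 * (1 * log t + t * (1 / t)))
      - ((t + 1) * log (t + 1) + (t + 1) ^ 2 / 2 * (1 / (t + 1))) := by
    unfold Af
    have a2 : t + 2 ≠ 0 := by positivity
    have a1 : t + 1 ≠ 0 := by positivity
    field_simp
    ring
  rw [hv]
  exact hd

theorem hasDerivAt_Af {t : ℝ} (ht : 0 < t) :
    HasDerivAt Af (log (t + 2) + log t - 2 * log (t + 1)) t := by
  have h2 : HasDerivAt (fun x : ℝ => x + 2) 1 t := (hasDerivAt_id t).add_const 2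
  have h1 : HasDerivAt (fun x : ℝ => x + 1) 1 t := (hasDerivAt_id t).add_const 1
  have l2 : HasDerivAt (fun x : ℝ => log (x + 2)) (1 / (t + 2)) t := h2.log (by positivity)
  have l1 : HasDerivAt (fun x : ℝ => log (x + 1)) (1 / (t + 1)) t := h1.log (by positivity)
  have l0 : HasDerivAt (fun x : ℝ => log x) (1 / t) t := (hasDerivAt_id t).log ht.ne'
  have i0 : HasDerivAt (fun x : ℝ => x) 1 t := hasDerivAt_id t
  have key := ((h2.mul l2).sub ((h1.mul l1).const_mul 2)).add (i0.mul l0)
  have hd : HasDerivAt Af ((1 * log (t + 2) + (t + 2) * (1 / (t + 2)))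
      - 2 * (1 * log (t + 1) + (t + 1) * (1 / (t + 1))) + (1 * log t + t * (1 / t))) t := key
  have hv : log (t + 2) + log t - 2 * log (t + 1) =
      (1 * log (t + 2) + (t + 2) * (1 / (t + 2)))
      - 2 * (1 * log (t + 1) + (t + 1) * (1 / (t + 1))) + (1 * log t + t * (1 / t)) := by
    have a2 : t + 2 ≠ 0 := by positivity
    have a1 : t + 1 ≠ 0 := by positivity
    field_simp
    ring
  rw [hv]
  exact hd

theorem antitoneOn_Af : AntitoneOn Af (Ioi 0) := by
  refine antitoneOn_of_deriv_nonpos (convex_Ioi 0) ?_ ?_ ?_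
  · intro x hx
    exact (hasDerivAt_Af hx).continuousAt.continuousWithinAt
  · intro x hx
    rw [interior_Ioi] at hx
    exact (hasDerivAt_Af hx).differentiableAt.differentiableWithinAt
  · intro x hx
    rw [interior_Ioi] at hx
    have hx0 : 0 < x := hx
    rw [(hasDerivAt_Af hx0).deriv]
    have h1 : log (x + 2) + log x = log ((x + 2) * x) := (Real.log_mul (by positivity) hx0.ne').symm
    have h2 : 2 * log (x + 1) = log ((x + 1) ^ 2) := by
      rw [Real.log_pow]
      push_cast
      ring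
    have h3 : log ((x + 2) * x) ≤ log ((x + 1) ^ 2) := by
      apply Real.log_le_log (by positivity)
      nlinarith
    linarith

theorem continuous_sf : Continuous (fun x : ℝ => x / 4 * (x * log x)) :=
  (continuous_id.div_const 4).mul Real.continuous_mul_log

theorem continuousOn_sf : ContinuousOn sf (Ici 0) := by
  have h2 : ContinuousOn (fun x : ℝ => log (x + 2)) (Ici 0) := by
    apply ContinuousOn.log (by fun_prop)
    intro x hx
    have : (0 : ℝ) ≤ x := hx
    positivity
  have h1 : ContinuousOn (fun x : ℝ => log (x + 1)) (Ici 0) := by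
    apply ContinuousOn.log (by fun_prop)
    intro x hx
    have : (0 : ℝ) ≤ x := hx
    positivity
  have a2 : ContinuousOn (fun x : ℝ => (x + 2) ^ 2 / 4) (Ici 0) := by fun_prop
  have a1 : ContinuousOn (fun x : ℝ => (x + 1) ^ 2 / 2) (Ici 0) := by fun_prop
  exact (((a2.mul h2).add continuous_sf.continuousOn).sub (a1.mul h1)).sub continuousOn_const

/-- the tangent line inequality -/
theorem sf_le_tangent {s x : ℝ} (hs : 0 < s) (hx : 0 ≤ x) :
    sf x ≤ sf s + Af s / 2 * (x - s) := by
  set g : ℝ → ℝ := fun y => sf y - Af s / 2 * y with hg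
  have hder : ∀ y, 0 < y → HasDerivAt g (Af y / 2 - Af s / 2) y := by
    intro y hy
    have := (hasDerivAt_sf hy).sub ((hasDerivAt_id y).const_mul (Af s / 2))
    have e : Af y / 2 - Af s / 2 = Af y / 2 - Af s / 2 * 1 := by ring
    rw [e]
    exact this
  have hcont : ContinuousOn g (Ici 0) := continuousOn_sf.sub (by fun_prop)
  have key : g x ≤ g s := by
    rcases le_total x s with h | h
    · have hm : MonotoneOn g (Icc 0 s) := by
        refine monotoneOn_of_deriv_nonneg (convex_Icc 0 s) (hcont.mono (fun y hy => hy.1)) ?_ ?_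
        · intro y hy
          rw [interior_Icc] at hy
          exact (hder y hy.1).differentiableAt.differentiableWithinAt
        · intro y hy
          rw [interior_Icc] at hy
          rw [(hder y hy.1).deriv]
          have := antitoneOn_Af (show y ∈ Ioi (0 : ℝ) from hy.1) (show s ∈ Ioi (0 : ℝ) from hs) hy.2.le
          linarith
      exact hm ⟨hx, h⟩ ⟨hs.le, le_rfl⟩ h
    · have hm : AntitoneOn g (Ici s) := by
        refine antitoneOn_of_deriv_nonpos (convex_Ici s)
          (hcont.mono (fun y hy => hs.le.trans hy)) ?_ ?_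
        · intro y hy
          rw [interior_Ici] at hy
          exact (hder y (hs.trans hy)).differentiableAt.differentiableWithinAt
        · intro y hy
          rw [interior_Ici] at hy
          rw [(hder y (hs.trans hy)).deriv]
          have := antitoneOn_Af (show s ∈ Ioi (0 : ℝ) from hs)
            (show y ∈ Ioi (0 : ℝ) from hs.trans hy) (le_of_lt hy)
          linarith
      exact hm (Set.mem_Ici.2 le_rfl) h h
  simp only [hg] at key
  linarith

/-- the root -/
theorem exists_root : ∃ u : ℝ, 51 / 8 < u ∧ u < 32 / 5 ∧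
    u * log u - (u - 1) * log (u - 1) = 4 * log 2 := by
  set F : ℝ → ℝ := fun u => u * log u - (u - 1) * log (u - 1) with hF
  have hc : Continuous F :=
    Real.continuous_mul_log.sub (Real.continuous_mul_log.comp (continuous_id.sub continuous_const))
  have l2 : (0 : ℝ) < log 2 := Real.log_pos (by norm_num)
  have h1 : F (51 / 8) < 4 * log 2 := by
    have e1 : log (51 / 8 : ℝ) = log 51 - 3 * log 2 := by
      rw [Real.log_div (by norm_num) (by norm_num), show (8 : ℝ) = 2 ^ 3 by norm_num, Real.log_pow]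
      push_cast
      ring
    have e2 : log (51 / 8 - 1 : ℝ) = log 43 - 3 * log 2 := by
      rw [show (51 / 8 - 1 : ℝ) = 43 / 8 by norm_num, Real.log_div (by norm_num) (by norm_num),
        show (8 : ℝ) = 2 ^ 3 by norm_num, Real.log_pow]
      push_cast
      ring
    have e3 : 51 * log 51 < 43 * log 43 + 56 * log 2 := by
      have a : (51 : ℝ) * log 51 = log (51 ^ 51) := by
        rw [Real.log_pow]
        norm_num
      have b : (43 : ℝ) * log 43 + 56 * log 2 = log (43 ^ 43 * 2 ^ 56) := by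
        rw [Real.log_mul (by positivity) (by positivity), Real.log_pow, Real.log_pow]
        norm_num
      rw [a, b]
      exact Real.log_lt_log (by positivity) (by norm_num)
    simp only [hF]
    rw [e1, e2]
    linarith
  have h2 : 4 * log 2 < F (32 / 5) := by
    have e1 : log (32 / 5 : ℝ) = 5 * log 2 - log 5 := by
      rw [Real.log_div (by norm_num) (by norm_num), show (32 : ℝ) = 2 ^ 5 by norm_num, Real.log_pow]
      push_cast
      ring
    have e2 : log (32 / 5 - 1 : ℝ) = 3 * log 3 - log 5 := by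
      rw [show (32 / 5 - 1 : ℝ) = 3 ^ 3 / 5 by norm_num, Real.log_div (by norm_num) (by norm_num),
        Real.log_pow]
      push_cast
      ring
    have e3 : 81 * log 3 + 5 * log 5 < 140 * log 2 := by
      have a : (81 : ℝ) * log 3 + 5 * log 5 = log (3 ^ 81 * 5 ^ 5) := by
        rw [Real.log_mul (by positivity) (by positivity), Real.log_pow, Real.log_pow]
        norm_num
      have b : (140 : ℝ) * log 2 = log (2 ^ 140) := by
        rw [Real.log_pow]
        norm_num
      rw [a, b]
      exact Real.log_lt_log (by positivity) (by norm_num)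
    simp only [hF]
    rw [e1, e2]
    linarith
  obtain ⟨u, hu, hu2⟩ := intermediate_value_Icc (show (51 / 8 : ℝ) ≤ 32 / 5 by norm_num)
    hc.continuousOn ⟨h1.le, h2.le⟩
  refine ⟨u, lt_of_le_of_ne hu.1 ?_, lt_of_le_of_ne hu.2 ?_, hu2⟩
  · rintro rfl
    exact h1.ne hu2
  · rintro rfl
    exact h2.ne' hu2

theorem exists_opt : ∃ P : ℝ, 0.76 < P ∧ P ≤ 0.76745 ∧ ∀ Q, 0 ≤ Q → ph Q ≤ ph P := by
  obtain ⟨u, h1, h2, hu⟩ := exists_root
  have hu0 : 0 < u := by linarith
  set t : ℝ := √u - 1 with ht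
  have hsq : (t + 1) ^ 2 = u := by
    rw [ht, sub_add_cancel, Real.sq_sqrt hu0.le]
  have b1 : (2.52 : ℝ) < t + 1 := by
    rw [ht, sub_add_cancel]
    exact Real.lt_sqrt_of_sq_lt (by norm_num; linarith)
  have b2 : t + 1 < (2.5349 : ℝ) := by
    rw [ht, sub_add_cancel]
    rw [Real.sqrt_lt' (by norm_num)]
    norm_num
    linarith
  norm_num at b1 b2
  have t0 : 0 < t := by linarith
  have hlu : log u = 2 * log (t + 1) := by
    rw [← hsq, Real.log_pow]
    push_cast
    ring
  have hu1 : u - 1 = t * (t + 2) := by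
    rw [← hsq]
    ring
  have hlu1 : log (u - 1) = log t + log (t + 2) := by
    rw [hu1, Real.log_mul t0.ne' (by positivity)]
  have key : sf t = Af t / 2 * (1 + t) := by
    rw [hlu, hlu1, hu1, ← hsq] at hu
    clear_value t
    unfold sf Af
    linear_combination (1 / 4 : ℝ) * hu
  have hph : ph (t / 2) = Af t / 2 := by
    unfold ph
    rw [Sf_one, show 2 * (t / 2) = t by ring, key]
    field_simp
  refine ⟨t / 2, by norm_num; linarith, by norm_num; linarith, fun Q hQ => ?_⟩
  rw [hph]
  unfold ph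
  rw [Sf_one, div_le_iff₀ (by positivity)]
  have := sf_le_tangent t0 (show 0 ≤ 2 * Q by positivity)
  rw [key] at this
  linarith

theorem log_bounds {x : ℝ} (h0 : 0 ≤ x) (h1 : x < 1) :
    2 * (x + x ^ 3 / 3 + x ^ 5 / 5) ≤ log ((1 + x) / (1 - x)) ∧
    log ((1 + x) / (1 - x)) ≤ 2 * (x + x ^ 3 / 3 + x ^ 5 / 5 + x ^ 7 / (1 - x ^ 2)) := by
  have a := Real.sum_range_le_log_div h0 h1 3
  have b := Real.log_div_le_sum_range_add h0 h1 3
  simp only [Finset.sum_range_succ, Finset.sum_range_zero] at a b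
  norm_num at a b
  constructor <;> linarith

theorem ph_gt : 0.29323627 * log 2 < ph 0.7641 := by
  have L1 := log_bounds (x := 1 / 251) (by norm_num) (by norm_num)
  have L2 := log_bounds (x := 1 / 449) (by norm_num) (by norm_num)
  have L3 := log_bounds (x := 1 / 4801) (by norm_num) (by norm_num)
  have L4 := log_bounds (x := 1 / 8749) (by norm_num) (by norm_num)
  have L5 := log_bounds (x := 3 / 563) (by norm_num) (by norm_num)
  have L6 := log_bounds (x := 41 / 25241) (by norm_num) (by norm_num)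
  have L7 := log_bounds (x := 1 / 35281) (by norm_num) (by norm_num)
  rw [show ((1 : ℝ) + 1 / 251) / (1 - 1 / 251) = 2 * 3 ^ 2 * 7 / 5 ^ 3 by norm_num,
    Real.log_div (by norm_num) (by norm_num), Real.log_mul (by norm_num) (by norm_num),
    Real.log_mul (by norm_num) (by norm_num), Real.log_pow, Real.log_pow] at L1
  rw [show ((1 : ℝ) + 1 / 449) / (1 - 1 / 449) = 3 ^ 2 * 5 ^ 2 / (2 ^ 5 * 7) by norm_num,
    Real.log_div (by norm_num) (by norm_num), Real.log_mul (by norm_num) (by norm_num),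
    Real.log_mul (by norm_num) (by norm_num), Real.log_pow, Real.log_pow, Real.log_pow] at L2
  rw [show ((1 : ℝ) + 1 / 4801) / (1 - 1 / 4801) = 7 ^ 4 / (2 ^ 5 * 3 * 5 ^ 2) by norm_num,
    Real.log_div (by norm_num) (by norm_num), Real.log_mul (by norm_num) (by norm_num),
    Real.log_mul (by norm_num) (by norm_num), Real.log_pow, Real.log_pow, Real.log_pow] at L3
  rw [show ((1 : ℝ) + 1 / 8749) / (1 - 1 / 8749) = 5 ^ 4 * 7 / (2 * 3 ^ 7) by norm_num,
    Real.log_div (by norm_num) (by norm_num), Real.log_mul (by norm_num) (by norm_num),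
    Real.log_mul (by norm_num) (by norm_num), Real.log_pow, Real.log_pow] at L4
  have d1 : log (2 * 0.7641 : ℝ) = 3 * log 3 + log 7 - 3 * log 5
      + log ((1 + 3 / 563) / (1 - 3 / 563)) := by
    rw [show (2 * 0.7641 : ℝ) = 3 ^ 3 * 7 / 5 ^ 3 * ((1 + 3 / 563) / (1 - 3 / 563)) by norm_num,
      Real.log_mul (by norm_num) (by norm_num), Real.log_div (by norm_num) (by norm_num),
      Real.log_mul (by norm_num) (by norm_num), Real.log_pow, Real.log_pow]
    push_cast
    ring
  have d2 : log (2 * 0.7641 + 1 : ℝ) = 2 * log 3 + log 7 - 2 * log 5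
      + log ((1 + 41 / 25241) / (1 - 41 / 25241)) := by
    rw [show (2 * 0.7641 + 1 : ℝ) = 3 ^ 2 * 7 / 5 ^ 2 * ((1 + 41 / 25241) / (1 - 41 / 25241)) by
        norm_num,
      Real.log_mul (by norm_num) (by norm_num), Real.log_div (by norm_num) (by norm_num),
      Real.log_mul (by norm_num) (by norm_num), Real.log_pow, Real.log_pow]
    push_cast
    ring
  have d3 : log (2 * 0.7641 + 2 : ℝ) = 2 * log 3 + 2 * log 7 - 3 * log 5
      + log ((1 + 1 / 35281) / (1 - 1 / 35281)) := by
    rw [show (2 * 0.7641 + 2 : ℝ) = 3 ^ 2 * 7 ^ 2 / 5 ^ 3 * ((1 + 1 / 35281) / (1 - 1 / 35281)) by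
        norm_num,
      Real.log_mul (by norm_num) (by norm_num), Real.log_div (by norm_num) (by norm_num),
      Real.log_mul (by norm_num) (by norm_num), Real.log_pow, Real.log_pow, Real.log_pow]
    push_cast
    ring
  unfold ph
  rw [Sf_one, lt_div_iff₀ (by norm_num)]
  unfold sf
  rw [d1, d2, d3]
  generalize log ((1 + 3 / 563) / (1 - 3 / 563)) = z5 at L5 ⊢
  generalize log ((1 + 41 / 25241) / (1 - 41 / 25241)) = z6 at L6 ⊢
  generalize log ((1 + 1 / 35281) / (1 - 1 / 35281)) = z7 at L7 ⊢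
  generalize log 2 = z2 at *
  generalize log 3 = z3 at *
  generalize log 5 = z8 at *
  generalize log 7 = z9 at *
  obtain ⟨L1, L1'⟩ := L1
  obtain ⟨L2, L2'⟩ := L2
  obtain ⟨L3, L3'⟩ := L3
  obtain ⟨L4, L4'⟩ := L4
  obtain ⟨L5, L5'⟩ := L5
  obtain ⟨L6, L6'⟩ := L6
  obtain ⟨L7, L7'⟩ := L7
  norm_num at L1 L1' L2 L2' L3 L3' L4 L4' L5 L5' L6 L6' L7 L7' ⊢
  linarith

end Pool.Agent.Helper43.LB
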